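import Pool.Agent.Helper78_E.Stmts4

/-!
# MP_7d2497_an, second stage: module GROW2
-/

namespace Pool.Agent.H78E.H18

open MeasureTheory Filter Topology Complex Pool.Agent.H78E

noncomputable section

/-- subadditivity, iterated -/
lemma grow_step {φ : ℝ → ℝ} (hφ : IsWeight φ) {C : ℝ} (hC : ∀ t : ℝ, 0 ≤ t → φ t ≤ C) {t : ℝ}
    (ht : 0 < t) : ∀ (n : ℕ) (s : ℝ), 0 ≤ s → s ≤ ((n : ℝ) + 1) * t →
      Real.log (φ (-s)) ≤ ((n : ℝ) + 1) * (Real.log (φ (-t)) + Real.log C) := by
  have hpos : ∀ s, 0 < φ s := fun s => lt_of_lt_of_le one_pos (hφ.one_le s)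
  have hC1 : 1 ≤ C := (hφ.one_le 0).trans (hC 0 le_rfl)
  have hlogC : 0 ≤ Real.log C := Real.log_nonneg hC1
  have hlogt : 0 ≤ Real.log (φ (-t)) := Real.log_nonneg (hφ.one_le _)
  have h0 : ∀ s, s ≤ t → Real.log (φ (-s)) ≤ Real.log (φ (-t)) + Real.log C := by
    intro s hst
    rw [← Real.log_mul (hpos _).ne' (by linarith)]
    apply Real.log_le_log (hpos _)
    have h1 := hφ.submul (-t) (t - s)
    have h2 : -t + (t - s) = -s := by ring
    rw [h2] at h1
    exact h1.trans (mul_le_mul_of_nonneg_left (hC _ (by linarith)) (hpos _).le)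
  intro n
  induction n with
  | zero =>
    intro s _ hst
    have := h0 s (by simpa using hst)
    simpa using this
  | succ n ih =>
    intro s hs0 hst
    rcases le_total s t with h | h
    · have h1 := h0 s h
      have h2 : (0 : ℝ) ≤ ((n + 1 : ℕ) : ℝ) := Nat.cast_nonneg _
      nlinarith
    · have h1 := ih (s - t) (by linarith) (by push_cast at hst ⊢; nlinarith)
      have h2 : Real.log (φ (-s)) ≤ Real.log (φ (-t)) + Real.log (φ (-(s - t))) := by
        rw [← Real.log_mul (hpos _).ne' (hpos _).ne']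
        apply Real.log_le_log (hpos _)
        have h3 := hφ.submul (-t) (-(s - t))
        have h4 : -t + -(s - t) = -s := by ring
        rwa [h4] at h3
      push_cast
      nlinarith

lemma grow_lin {φ : ℝ → ℝ} (hφ : IsWeight φ) {C : ℝ} (hC : ∀ t : ℝ, 0 ≤ t → φ t ≤ C) {t : ℝ}
    (ht : 0 < t) {s : ℝ} (hs : 0 ≤ s) :
    Real.log (φ (-s)) ≤ (s / t + 1) * (Real.log (φ (-t)) + Real.log C) := by
  have hC1 : 1 ≤ C := (hφ.one_le 0).trans (hC 0 le_rfl)
  have hlogC : 0 ≤ Real.log C := Real.log_nonneg hC1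
  have hlogt : 0 ≤ Real.log (φ (-t)) := Real.log_nonneg (hφ.one_le _)
  have h1 : s / t < (⌊s / t⌋₊ : ℝ) + 1 := Nat.lt_floor_add_one _
  have h2 : (⌊s / t⌋₊ : ℝ) ≤ s / t := Nat.floor_le (div_nonneg hs ht.le)
  refine (grow_step hφ hC ht ⌊s / t⌋₊ s hs ?_).trans ?_
  · rw [div_lt_iff₀ ht] at h1
    exact h1.le
  · exact mul_le_mul_of_nonneg_right (by linarith) (by linarith)

/-- GROW2 -/
theorem grow2 : Grow2Stmt := by
  rintro φ hφ ⟨C, hC⟩ hinf η y0 hη hy0
  have hpos : ∀ s, 0 < φ s := fun s => lt_of_lt_of_le one_pos (hφ.one_le s)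
  -- the constant `c`
  obtain ⟨c, hc, hc2⟩ : ∃ c : ℝ, 0 < c ∧ 16 * c ^ 2 ≤ η := by
    refine ⟨Real.sqrt η / 4, by positivity, ?_⟩
    rw [div_pow, Real.sq_sqrt hη.le]
    apply le_of_eq
    ring
  -- large `u = sqrt t / (2 c)` satisfies `u ≤ exp (η / 4 * u)`
  have hlim : ∀ᶠ u : ℝ in atTop, u ≤ Real.exp (η / 4 * u) := by
    have h1 : Tendsto (fun x : ℝ => Real.exp x / x ^ 2) atTop atTop :=
      Real.tendsto_exp_div_pow_atTop 2
    have h2 : Tendsto (fun u : ℝ => η / 4 * u) atTop atTop :=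
      tendsto_id.const_mul_atTop (by positivity)
    filter_upwards [(h1.comp h2).eventually_ge_atTop 1, eventually_ge_atTop (16 / η ^ 2),
      eventually_gt_atTop (0 : ℝ)] with u hu hu2 hu0
    simp only [Function.comp] at hu
    have h3 : 0 < (η / 4 * u) ^ 2 := by positivity
    rw [le_div_iff₀ h3, one_mul] at hu
    refine le_trans ?_ hu
    have h4 : 16 ≤ u * η ^ 2 := by
      rw [div_le_iff₀ (by positivity)] at hu2
      exact hu2
    have h5 : (η / 4 * u) ^ 2 = u * (u * η ^ 2) / 16 := by ring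
    rw [h5]
    nlinarith
  obtain ⟨U, hU⟩ := eventually_atTop.1 hlim
  set D := Real.log C with hD
  have hC1 : 1 ≤ C := (hφ.one_le 0).trans (hC 0 le_rfl)
  have hD0 : 0 ≤ D := Real.log_nonneg hC1
  -- a large `t`
  set R : ℝ := max 1 (max (4 * c / y0) (max (D / c) (2 * c * U))) with hR
  obtain ⟨t, htR, ht⟩ := hinf c hc (R ^ 2)
  have hR1 : 1 ≤ R := le_max_left _ _
  have hRy : 4 * c / y0 ≤ R := (le_max_left _ _).trans (le_max_right _ _)
  have hRD : D / c ≤ R := ((le_max_left _ _).trans (le_max_right _ _)).trans (le_max_right _ _)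
  have hRU : 2 * c * U ≤ R := ((le_max_right _ _).trans (le_max_right _ _)).trans (le_max_right _ _)
  have ht0 : 0 < t := lt_of_lt_of_le (by positivity) htR
  set q := Real.sqrt t with hq
  have hqR : R ≤ q := Real.le_sqrt_of_sq_le htR
  have hq0 : 0 < q := lt_of_lt_of_le (by linarith) hqR
  have hqq : q * q = t := Real.mul_self_sqrt ht0.le
  refine ⟨4 * c / q, by positivity, ?_, ?_⟩
  · rw [div_le_iff₀ hq0]
    rw [div_le_iff₀ hy0] at hRy
    nlinarith
  -- pointwise bound
  have hK : Real.log (φ (-t)) + D ≤ 2 * c * q := by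
    have h1 : D ≤ c * q := by
      rw [div_le_iff₀ hc] at hRD
      nlinarith
    linarith
  have hpt : ∀ s, 0 < s → φ (-s) * Real.exp (-(4 * c / q * s)) ≤
      Real.exp (2 * c * q) * Real.exp (-(2 * c / q) * s) := by
    intro s hs
    have h1 := grow_lin hφ hC ht0 hs.le
    have h2 : (s / t + 1) * (Real.log (φ (-t)) + D) ≤ (s / t + 1) * (2 * c * q) :=
      mul_le_mul_of_nonneg_left hK (by positivity)
    have h3 : (s / t + 1) * (2 * c * q) = 2 * c / q * s + 2 * c * q := by
      rw [← hqq]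
      field_simp
    have h4 : φ (-s) ≤ Real.exp (2 * c / q * s + 2 * c * q) := by
      rw [← Real.log_le_iff_le_exp (hpos _)]
      linarith
    calc φ (-s) * Real.exp (-(4 * c / q * s))
        ≤ Real.exp (2 * c / q * s + 2 * c * q) * Real.exp (-(4 * c / q * s)) :=
          mul_le_mul_of_nonneg_right h4 (Real.exp_pos _).le
      _ = Real.exp (2 * c * q) * Real.exp (-(2 * c / q) * s) := by
          rw [← Real.exp_add, ← Real.exp_add]
          congr 1
          ring
  have hneg : -(2 * c / q) < 0 := by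
    have : 0 < 2 * c / q := by positivity
    linarith
  have hint : IntegrableOn (fun s : ℝ => Real.exp (2 * c * q) * Real.exp (-(2 * c / q) * s))
      (Set.Ioi 0) := (integrableOn_exp_mul_Ioi hneg 0).const_mul _
  have hle : ∫ s in Set.Ioi (0 : ℝ), φ (-s) * Real.exp (-(4 * c / q * s)) ≤
      ∫ s in Set.Ioi (0 : ℝ), Real.exp (2 * c * q) * Real.exp (-(2 * c / q) * s) := by
    refine integral_mono_of_nonneg ?_ hint ?_
    · exact Eventually.of_forall fun s => mul_nonneg (hpos _).le (Real.exp_pos _).le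
    · exact (ae_restrict_iff' measurableSet_Ioi).2 (Eventually.of_forall fun s hs => hpt s hs)
  refine hle.trans ?_
  rw [integral_const_mul, integral_exp_mul_Ioi hneg 0]
  have h1 : -Real.exp (-(2 * c / q) * 0) / -(2 * c / q) = q / (2 * c) := by
    rw [mul_zero, Real.exp_zero, neg_div_neg_eq, one_div_div]
  rw [h1]
  have h2 : q / (2 * c) ≤ Real.exp (η / 4 * (q / (2 * c))) := by
    apply hU
    rw [le_div_iff₀ (by positivity)]
    linarith
  calc Real.exp (2 * c * q) * (q / (2 * c))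
      ≤ Real.exp (2 * c * q) * Real.exp (η / 4 * (q / (2 * c))) :=
        mul_le_mul_of_nonneg_left h2 (Real.exp_pos _).le
    _ = Real.exp (2 * c * q + η / 4 * (q / (2 * c))) := (Real.exp_add _ _).symm
    _ ≤ Real.exp (η / (4 * c / q)) := by
        apply Real.exp_le_exp.2
        have h3 : η / (4 * c / q) = η * q / (4 * c) := by
          rw [div_div_eq_mul_div]
        have h4 : η / 4 * (q / (2 * c)) = η * q / (4 * c) / 2 := by
          field_simp
        have h5 : 2 * c * q ≤ η * q / (4 * c) / 2 := by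
          rw [div_div, le_div_iff₀ (by positivity)]
          nlinarith
        linarith
end

end Pool.Agent.H78E.H18
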