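import Pool.Agent.Helper78_E.Stmts4
import Pool.Agent.Helper78_E.Pos

/-!
# MP_7d2497_an, second stage: module NE
-/

namespace Pool.Agent.H78E.H18

open MeasureTheory Filter Topology Complex Pool.Agent.H78E

noncomputable section

/-- NE -/
theorem ne (hL : LapuStmt) : NeStmt := by
  intro l hsimp hne k hk hkne
  rw [Set.nonempty_iff_ne_empty]
  intro hemp
  have hex : ∀ z : ℂ, z.im ≤ 0 → ∃ f ∈ (ann k).I, chi z f ≠ 0 := by
    intro z hz
    by_contra hcon
    push Not at hcon
    have : z ∈ (ann k).hull := ⟨hz, hcon⟩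
    rw [hemp] at this
    exact this
  obtain ⟨x, hx⟩ := hne
  set h : Y →L[ℂ] ℂ := chi x + k with hh
  have hhull : (ann h).hull = {x} := by
    apply Set.Subset.antisymm
    · intro z hz
      by_contra hzx
      obtain ⟨f2, hf2, hf2z⟩ := hex z hz.1
      have hc1 : conv (sep x) f2 ∈ (ann (chi x)).I :=
        (ann (chi x)).conv_mem_left hL (sep_mem hx.1) f2
      have hc2 : conv (sep x) f2 ∈ (ann k).I := (ann k).conv_mem_right _ hf2
      have hc3 : conv (sep x) f2 ∈ (ann h).I := by
        intro s hs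
        rw [hh, add_apply, hc1 s hs, hc2 s hs, add_zero]
      have h1 := hz.2 _ hc3
      rw [chi_conv hz.1, chi_sep hz.1] at h1
      have h2 : Complex.I * (z - x) / (1 + Complex.I * z) ^ 2 ≠ 0 := by
        apply div_ne_zero
        · exact mul_ne_zero Complex.I_ne_zero (sub_ne_zero.mpr hzx)
        · exact pow_ne_zero _ (one_add_ne hz.1)
      exact (mul_ne_zero h2 hf2z) h1
    · rintro z rfl
      refine ⟨hx.1, ?_⟩
      by_contra hcon
      push Not at hcon
      obtain ⟨f3, hf3, hf3x⟩ := hcon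
      obtain ⟨f2, hf2, hf2x⟩ := hex z hx.1
      have hc1 : conv f3 f2 ∈ (ann h).I := (ann h).conv_mem_left hL hf3 f2
      have hc2 : conv f3 f2 ∈ (ann k).I := (ann k).conv_mem_right _ hf2
      have h1 := ann_self hc1
      rw [hh, add_apply, ann_self hc2, add_zero, chi_conv hx.1] at h1
      exact (mul_ne_zero hf3x hf2x) h1
  obtain ⟨c, z', hz', hcz⟩ := hsimp h (by
    intro f hf
    rw [hh, add_apply, hk f hf, hx.2 f hf, add_zero]) ⟨x, hhull⟩
  have hk2 : ∀ f, k f = c * chi z' f - chi x f := by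
    intro f
    have h1 := congrArg (fun m : Y →L[ℂ] ℂ => m f) hcz
    simp only [hh, add_apply, smul_apply, smul_eq_mul] at h1
    rw [← h1]
    ring
  obtain ⟨f2, hf2, hf2x⟩ := hex x hx.1
  by_cases hzx : z' = x
  · subst hzx
    have h1 := ann_self hf2
    rw [hk2] at h1
    have h2 : (c - 1) * chi z' f2 = 0 := by
      rw [← h1]
      ring
    rcases mul_eq_zero.1 h2 with h3 | h3
    · apply hkne
      ext f
      rw [hk2]
      have h4 : c = 1 := by linear_combination h3
      rw [h4, one_mul, sub_self]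
      rfl
    · exact hf2x h3
  · have hc2 : conv (sep z') f2 ∈ (ann k).I := (ann k).conv_mem_right _ hf2
    have h1 := ann_self hc2
    rw [hk2, chi_conv hz', chi_conv hx.1, chi_sep hz', chi_sep hx.1, sub_self, mul_zero,
      zero_div, zero_mul, mul_zero, zero_sub, neg_eq_zero] at h1
    have h2 : Complex.I * (x - z') / (1 + Complex.I * x) ^ 2 ≠ 0 := by
      apply div_ne_zero
      · exact mul_ne_zero Complex.I_ne_zero (sub_ne_zero.mpr (Ne.symm hzx))
      · exact pow_ne_zero _ (one_add_ne hx.1)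
    exact (mul_ne_zero h2 hf2x) h1

end

end Pool.Agent.H78E.H18
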